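import Mathlib
import Pool.Agent.H57.LinDim.Defs
import Pool.Agent.H57.LinDim.Final

set_option autoImplicit false

/-!
# A simplicial complex of dimension two which embeds into `ℝ³` but has no geometric realisation in `ℝ⁴`

The complex consists of triangles any two of which share at most one vertex, of the surface of a
tetrahedron, and of isolated points. The triangles embed topologically into `ℝ³`: put all vertices
on a line and every triangle into its own half-plane bounded by this line. (The surface of the
tetrahedron is there because it does not embed into the plane.)

The triangles come in disjoint pairs, and they are chosen so that for every placement of the vertices
in `ℝ⁴` the two triangles of one of the pairs intersect. This is done greedily. By the linear van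
Kampen–Flores theorem any seven points in `ℝ⁴` have two disjoint triples whose triangles intersect, so
in every placement of `N` points a positive proportion of all pairs of triples intersect; in general
position this set of pairs is determined by the orientations of all five-tuples, and by a
Warren-type bound there are only `exp (O (N log N))` such order types. So `O (N log N)` pairs suffice
to meet the set of intersecting pairs of every order type, and this is so much less than `N ^ 2` that
the pairs can be chosen with the additional property that any two triples share at most one point.
-/

namespace Pool.Agent.Results.MP_c5a51c_co.SimplicialCounterexample

open Pool.Agent.H57.LinDim

/-- **The answer to Q2 is negative.** There is a simplicial `2`-complex `C` with `a(C) = 3` and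
`b(C) ≥ 5`: the union of its members is homeomorphic to a subset of `ℝ³` (and to no subset of the
plane), but no complex in `ℝ⁴` is combinatorially equivalent to `C`. -/
theorem result : ∃ (n : ℕ) (C : Cplx n), IsSimplicial C ∧ IsTwoComplex C ∧ aDim C = 3 ∧
    5 ≤ bDim C :=
  main

end Pool.Agent.Results.MP_c5a51c_co.SimplicialCounterexample
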